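import Pool.Agent.H56.GL.Event

set_option autoImplicit false
set_option linter.unusedSectionVars false

/-!
# Comparisons of fair bits along the edges of a graph of large girth
-/

namespace Pool.Agent.H56.GL

open Finset

variable {V ι : Type} [Fintype V] [DecidableEq V] [DecidableEq ι]

lemma not_reachable {k : ℕ} {s t : ι → V} {F : Finset ι} {e : ι} (hst : s e ≠ t e)
    (hinj : ∀ e' ∈ F, s(s e', t e') ≠ s(s e, t e))
    (hg : ((k : ℕ) : ℕ∞) < (pairGraph s t (insert e F)).egirth) (hcard : F.card + 1 ≤ k) :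
    ¬ (pairGraph s t F).Reachable (s e) (t e) := by
  rintro ⟨p0⟩
  obtain ⟨p, hp⟩ := p0.toPath
  have hle : pairGraph s t F ≤ pairGraph s t (insert e F) := by
    intro u w ⟨h1, e', he', h2⟩
    exact ⟨h1, e', Finset.mem_insert_of_mem he', h2⟩
  have hadj : (pairGraph s t (insert e F)).Adj (t e) (s e) :=
    ⟨hst.symm, e, Finset.mem_insert_self _ _, Or.inr ⟨rfl, rfl⟩⟩
  have hsub : ∀ a ∈ p.edges, ∃ e' ∈ F, s(s e', t e') = a := by
    intro a ha
    have h1 := p.edges_subset_edgeSet ha
    induction a with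
    | _ u w =>
      rw [SimpleGraph.mem_edgeSet] at h1
      obtain ⟨-, e', he', h2⟩ := h1
      refine ⟨e', he', ?_⟩
      rcases h2 with ⟨h3, h4⟩ | ⟨h3, h4⟩
      · rw [h3, h4]
      · rw [h3, h4, Sym2.eq_swap]
  have hlen : p.length ≤ F.card := by
    rw [← SimpleGraph.Walk.length_edges, ← List.toFinset_card_of_nodup hp.isTrail.edges_nodup]
    refine (Finset.card_le_card (t := F.image (fun e => s(s e, t e))) ?_).trans
      Finset.card_image_le
    intro a ha
    rw [List.mem_toFinset] at ha
    obtain ⟨e', he', h⟩ := hsub a ha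
    exact Finset.mem_image.2 ⟨e', he', h⟩
  have hcyc : (SimpleGraph.Walk.cons hadj (p.mapLe hle)).IsCycle := by
    rw [SimpleGraph.Walk.cons_isCycle_iff]
    refine ⟨hp.mapLe hle, ?_⟩
    rw [SimpleGraph.Walk.edges_mapLe_eq_edges]
    intro h
    obtain ⟨e', he', h'⟩ := hsub _ h
    exact hinj e' he' (h'.trans Sym2.eq_swap)
  have h1 := SimpleGraph.egirth_le_length hcyc
  rw [SimpleGraph.Walk.length_cons, SimpleGraph.Walk.length_mapLe] at h1
  have h2 := lt_of_lt_of_le hg h1
  have h3 : k < p.length + 1 := by exact_mod_cast h2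
  omega

/-- Fair bits. -/
noncomputable def fair (V : Type) : V → Fin 2 → ℝ := fun _ _ => 1 / 2

/-- The event that the bits `u` and `w` differ. -/
def Differ (u w : V) : Set (V → Fin 2) := {x | x u ≠ x w}

lemma fair_isSource : IsSource (fair V) := by
  intro v
  constructor
  · intro a
    unfold fair
    norm_num
  · unfold fair
    simp

lemma prob_add (μ : V → Fin 2 → ℝ) (B D : Set (V → Fin 2)) :
    prob μ (B ∩ D) + prob μ (B ∩ Dᶜ) = prob μ B := by
  classical
  unfold prob
  rw [← Finset.sum_add_distrib]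
  refine Finset.sum_congr rfl (fun x _ => ?_)
  by_cases h1 : x ∈ B <;> by_cases h2 : x ∈ D <;> simp [h1, h2]

lemma prob_shift (c : V → Fin 2) (B D : Set (V → Fin 2)) (h : ∀ x, x + c ∈ B ↔ x ∈ D) :
    prob (fair V) B = prob (fair V) D := by
  classical
  unfold prob
  rw [← Equiv.sum_comp (Equiv.addRight c)]
  refine Finset.sum_congr rfl (fun x _ => ?_)
  have h1 := h x
  rw [Equiv.coe_addRight]
  by_cases h2 : x ∈ D
  · rw [Set.indicator_of_mem h2, Set.indicator_of_mem (h1.2 h2)]
    simp [fair]
  · rw [Set.indicator_of_notMem h2, Set.indicator_of_notMem (fun h' => h2 (h1.1 h'))]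

lemma prob_univ_fair : prob (fair V) Set.univ = 1 := by
  rw [prob_eq]
  simp only [Set.indicator_univ]
  exact Ex_const fair_isSource 1

lemma fin2_aux : ∀ a b c : Fin 2, (a + c ≠ b + c ↔ a ≠ b) := by decide

lemma fin2_aux2 : ∀ a b : Fin 2, (a + 1 ≠ b + 0 ↔ ¬ a ≠ b) := by decide

theorem xor_indep {k : ℕ} {s t : ι → V} (hst : ∀ e, s e ≠ t e)
    (F : Finset ι) (hinj : Set.InjOn (fun e => s(s e, t e)) (F : Set ι))
    (hg : ((k : ℕ) : ℕ∞) < (pairGraph s t F).egirth) (hcard : F.card ≤ k) :
    prob (fair V) (⋂ e ∈ F, Differ (s e) (t e)) = (1 / 2) ^ F.card := by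
  classical
  induction F using Finset.induction_on with
  | empty => simp [prob_univ_fair]
  | insert e F he ih =>
    rw [Finset.card_insert_of_notMem he] at hcard ⊢
    have hle : pairGraph s t F ≤ pairGraph s t (insert e F) := by
      intro u w ⟨h1, e', he', h2⟩
      exact ⟨h1, e', Finset.mem_insert_of_mem he', h2⟩
    have ih' := ih (hinj.mono (by simp)) (lt_of_lt_of_le hg (SimpleGraph.egirth_anti hle))
      (by omega)
    have hnr := not_reachable (F := F) (hst e) (fun e' he' h' => by
      have := hinj (Finset.mem_coe.2 (Finset.mem_insert_of_mem he'))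
        (Finset.mem_coe.2 (Finset.mem_insert_self e F)) h'
      exact he (this ▸ he')) hg hcard
    set c : V → Fin 2 := fun v => if (pairGraph s t F).Reachable (s e) v then 1 else 0 with hc
    have h1 : prob (fair V) ((⋂ e ∈ F, Differ (s e) (t e)) ∩ Differ (s e) (t e)) =
        prob (fair V) ((⋂ e ∈ F, Differ (s e) (t e)) ∩ (Differ (s e) (t e))ᶜ) := by
      apply prob_shift c
      intro x
      have hF : ∀ e' ∈ F, (x + c ∈ Differ (s e') (t e') ↔ x ∈ Differ (s e') (t e')) := by
        intro e' he'
        have hcc : c (s e') = c (t e') := by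
          have hadj : (pairGraph s t F).Adj (s e') (t e') :=
            ⟨hst e', e', he', Or.inl ⟨rfl, rfl⟩⟩
          have hiff : (pairGraph s t F).Reachable (s e) (s e') ↔
              (pairGraph s t F).Reachable (s e) (t e') :=
            ⟨fun h => h.trans hadj.reachable, fun h => h.trans hadj.symm.reachable⟩
          simp only [hc, hiff]
        simp only [Differ, Set.mem_ofPred_eq, Pi.add_apply, hcc]
        exact fin2_aux _ _ _
      have he1 : (x + c ∈ Differ (s e) (t e) ↔ x ∈ (Differ (s e) (t e))ᶜ) := by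
        have hc1 : c (s e) = 1 := by
          simp only [hc]
          rw [if_pos (SimpleGraph.Reachable.refl _)]
        have hc0 : c (t e) = 0 := by
          simp only [hc]
          rw [if_neg hnr]
        simp only [Differ, Set.mem_compl_iff, Set.mem_ofPred_eq, Pi.add_apply, hc1, hc0]
        exact fin2_aux2 _ _
      rw [Set.mem_inter_iff, Set.mem_inter_iff, Set.mem_iInter₂, Set.mem_iInter₂, he1]
      constructor
      · rintro ⟨h2, h3⟩
        exact ⟨fun e' he' => (hF e' he').1 (h2 e' he'), h3⟩
      · rintro ⟨h2, h3⟩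
        exact ⟨fun e' he' => (hF e' he').2 (h2 e' he'), h3⟩
    have h2 := prob_add (fair V) (⋂ e ∈ F, Differ (s e) (t e)) (Differ (s e) (t e))
    rw [← h1, ih'] at h2
    rw [Finset.set_biInter_insert, Set.inter_comm, pow_succ]
    linarith

end Pool.Agent.H56.GL
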