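import Mathlib

set_option autoImplicit false
set_option linter.unusedSectionVars false

/-!
# Weighted expectations over independent finite sources and the trace formula for cycles
-/

namespace Pool.Agent.H56.GL

open Finset Matrix

variable {V A : Type} [Fintype V] [DecidableEq V] [Fintype A] [DecidableEq A]

/-- the weight of an assignment of values to the sources -/
def wt (μ : V → A → ℝ) (x : V → A) : ℝ := ∏ v, μ v (x v)

/-- expectation of `F` -/
def Ex (μ : V → A → ℝ) (F : (V → A) → ℝ) : ℝ := ∑ x, wt μ x * F x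

/-- independent sources -/
def IsSource (μ : V → A → ℝ) : Prop := ∀ v, (∀ a, 0 ≤ μ v a) ∧ ∑ a, μ v a = 1

lemma Ex_one {μ : V → A → ℝ} (hμ : IsSource μ) : Ex μ (fun _ => 1) = 1 := by
  unfold Ex wt
  simp only [mul_one]
  rw [← Fintype.prod_sum]
  exact Finset.prod_eq_one (fun v _ => (hμ v).2)

lemma wt_nonneg {μ : V → A → ℝ} (hμ : IsSource μ) (x : V → A) : 0 ≤ wt μ x :=
  Finset.prod_nonneg (fun v _ => (hμ v).1 _)

lemma Ex_add (μ : V → A → ℝ) (F G : (V → A) → ℝ) :
    Ex μ (fun x => F x + G x) = Ex μ F + Ex μ G := by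
  unfold Ex; rw [← Finset.sum_add_distrib]; exact Finset.sum_congr rfl (fun x _ => by ring)

lemma Ex_mul_left (μ : V → A → ℝ) (c : ℝ) (F : (V → A) → ℝ) :
    Ex μ (fun x => c * F x) = c * Ex μ F := by
  unfold Ex; rw [Finset.mul_sum]; exact Finset.sum_congr rfl (fun x _ => by ring)

lemma Ex_const {μ : V → A → ℝ} (hμ : IsSource μ) (c : ℝ) : Ex μ (fun _ => c) = c := by
  have := Ex_mul_left μ c (fun _ => 1)
  rw [Ex_one hμ] at this
  simpa using this

lemma Ex_sum (μ : V → A → ℝ) {ι : Type} (s : Finset ι) (F : ι → (V → A) → ℝ) :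
    Ex μ (fun x => ∑ i ∈ s, F i x) = ∑ i ∈ s, Ex μ (F i) := by
  unfold Ex
  rw [Finset.sum_comm]
  exact Finset.sum_congr rfl (fun x _ => by rw [Finset.mul_sum])

lemma wt_update (μ : V → A → ℝ) (w : V) (x : V → A) (a : A) :
    wt μ (Function.update x w a) * μ w (x w) = wt μ x * μ w a := by
  unfold wt
  rw [← Finset.mul_prod_erase _ _ (mem_univ w), ← Finset.mul_prod_erase _ (fun v => μ v (x v)) (mem_univ w)]
  have : ∏ v ∈ univ.erase w, μ v (Function.update x w a v) = ∏ v ∈ univ.erase w, μ v (x v) := by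
    apply Finset.prod_congr rfl
    intro v hv
    rw [Function.update_of_ne (Finset.ne_of_mem_erase hv)]
  rw [this, Function.update_self]
  ring

/-- resampling the source `w` -/
lemma Ex_resample {μ : V → A → ℝ} (hμ : IsSource μ) (w : V) (F : (V → A) → ℝ) :
    Ex μ F = Ex μ (fun x => ∑ a, μ w a * F (Function.update x w a)) := by
  have h1 : Ex μ (fun x => ∑ a, μ w a * F (Function.update x w a)) =
      ∑ p : (V → A) × A, wt μ p.1 * μ w p.2 * F (Function.update p.1 w p.2) := by
    unfold Ex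
    rw [Fintype.sum_prod_type]
    refine Finset.sum_congr rfl (fun x _ => ?_)
    rw [Finset.mul_sum]
    exact Finset.sum_congr rfl (fun a _ => by ring)
  let e : (V → A) × A ≃ (V → A) × A :=
    Function.Involutive.toPerm (fun p => (Function.update p.1 w p.2, p.1 w)) (by
      intro p
      ext v <;> simp)
  have h2 : ∑ p : (V → A) × A, wt μ p.1 * μ w p.2 * F (Function.update p.1 w p.2) =
      ∑ p : (V → A) × A, wt μ p.1 * μ w p.2 * F p.1 := by
    refine Fintype.sum_equiv e _ _ (fun p => ?_)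
    have : (e p) = (Function.update p.1 w p.2, p.1 w) := rfl
    rw [this]
    dsimp only
    rw [wt_update]
  rw [h1, h2, Fintype.sum_prod_type]
  unfold Ex
  refine Finset.sum_congr rfl (fun x _ => ?_)
  dsimp only
  rw [← Finset.sum_mul, ← Finset.mul_sum, (hμ w).2]
  ring

/-- the law of one source -/
lemma Ex_one_coord {μ : V → A → ℝ} (hμ : IsSource μ) (w : V) (φ : A → ℝ) :
    Ex μ (fun x => φ (x w)) = ∑ a, μ w a * φ a := by
  rw [Ex_resample hμ w]
  simp only [Function.update_self]
  exact Ex_const hμ _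

/-- the joint law of two sources -/
lemma Ex_two_coord {μ : V → A → ℝ} (hμ : IsSource μ) {u w : V} (h : u ≠ w) (φ : A → A → ℝ) :
    Ex μ (fun x => φ (x u) (x w)) = ∑ a, ∑ b, μ u a * μ w b * φ a b := by
  rw [Ex_resample hμ w]
  simp only [Function.update_self, Function.update_of_ne h]
  rw [Ex_one_coord hμ u (fun a => ∑ b, μ w b * φ a b)]
  refine Finset.sum_congr rfl (fun a _ => ?_)
  rw [Finset.mul_sum]
  exact Finset.sum_congr rfl (fun b _ => by ring)

/-- composition of the kernels along a walk `c` -/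
def comp (μ : V → A → ℝ) (c : ℕ → V) (h : ℕ → A → A → ℝ) : ℕ → A → A → ℝ
  | 0 => h 0
  | (j + 1) => fun a b => ∑ d, μ (c (j + 1)) d * (comp μ c h j a d * h (j + 1) d b)

lemma Ex_path {μ : V → A → ℝ} (hμ : IsSource μ) (c : ℕ → V) (h : ℕ → A → A → ℝ) (j : ℕ)
    (hc : ∀ i, 1 ≤ i → i ≤ j → ∀ l, l ≤ j + 1 → l ≠ i → c l ≠ c i)
    (F : (V → A) → ℝ)
    (hF : ∀ i, 1 ≤ i → i ≤ j → ∀ x a, F (Function.update x (c i) a) = F x) :
    Ex μ (fun x => (∏ i ∈ range (j + 1), h i (x (c i)) (x (c (i + 1)))) * F x) =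
      Ex μ (fun x => comp μ c h j (x (c 0)) (x (c (j + 1))) * F x) := by
  induction j generalizing F with
  | zero => simp [comp]
  | succ j ih =>
    have h1 : Ex μ (fun x => (∏ i ∈ range (j + 1 + 1), h i (x (c i)) (x (c (i + 1)))) * F x) =
        Ex μ (fun x => (∏ i ∈ range (j + 1), h i (x (c i)) (x (c (i + 1)))) *
          (h (j + 1) (x (c (j + 1))) (x (c (j + 2))) * F x)) := by
      congr 1
      funext x
      rw [Finset.prod_range_succ]
      ring
    rw [h1, ih (fun i hi1 hi2 l hl hli => hc i hi1 (by omega) l (by omega) hli)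
      (fun x => h (j + 1) (x (c (j + 1))) (x (c (j + 2))) * F x)
      (fun i hi1 hi2 x a => by
        have e1 : c (j + 1) ≠ c i := hc i hi1 (by omega) (j + 1) (by omega) (by omega)
        have e2 : c (j + 2) ≠ c i := hc i hi1 (by omega) (j + 2) (by omega) (by omega)
        rw [Function.update_of_ne e1, Function.update_of_ne e2, hF i hi1 (by omega)])]
    rw [Ex_resample hμ (c (j + 1))]
    congr 1
    funext x
    have e0 : c 0 ≠ c (j + 1) := hc (j + 1) (by omega) le_rfl 0 (by omega) (by omega)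
    have e2 : c (j + 2) ≠ c (j + 1) := hc (j + 1) (by omega) le_rfl (j + 2) (by omega) (by omega)
    simp only [Function.update_self, Function.update_of_ne e0, Function.update_of_ne e2,
      hF (j + 1) (by omega) le_rfl]
    rw [show comp μ c h (j + 1) (x (c 0)) (x (c (j + 1 + 1))) =
      ∑ d, μ (c (j + 1)) d * (comp μ c h j (x (c 0)) d * h (j + 1) d (x (c (j + 2)))) from rfl,
      Finset.sum_mul]
    exact Finset.sum_congr rfl (fun a _ => by ring)

/-- the kernels with the square roots of the weights -/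
noncomputable def ker (μ : V → A → ℝ) (c : ℕ → V) (h : ℕ → A → A → ℝ) (i : ℕ) : Matrix A A ℝ :=
  Matrix.of (fun a b => Real.sqrt (μ (c i) a) * h i a b * Real.sqrt (μ (c (i + 1)) b))

/-- products of matrices -/
def pr (G : ℕ → Matrix A A ℝ) : ℕ → Matrix A A ℝ
  | 0 => 1
  | (j + 1) => pr G j * G j

lemma pr_ker {μ : V → A → ℝ} (hμ : IsSource μ) (c : ℕ → V) (h : ℕ → A → A → ℝ) (j : ℕ) (a b : A) :
    pr (ker μ c h) (j + 1) a b =
      Real.sqrt (μ (c 0) a) * comp μ c h j a b * Real.sqrt (μ (c (j + 1)) b) := by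
  induction j generalizing b with
  | zero => simp [pr, ker, comp]
  | succ j ih =>
    rw [show pr (ker μ c h) (j + 1 + 1) = pr (ker μ c h) (j + 1) * ker μ c h (j + 1) from rfl,
      Matrix.mul_apply]
    simp only [ih]
    rw [show comp μ c h (j + 1) a b =
      ∑ d, μ (c (j + 1)) d * (comp μ c h j a d * h (j + 1) d b) from rfl, Finset.mul_sum,
      Finset.sum_mul]
    refine Finset.sum_congr rfl (fun d _ => ?_)
    have : Real.sqrt (μ (c (j + 1)) d) * Real.sqrt (μ (c (j + 1)) d) = μ (c (j + 1)) d :=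
      Real.mul_self_sqrt ((hμ _).1 _)
    simp only [ker, Matrix.of_apply]
    linear_combination (Real.sqrt (μ (c 0) a) * comp μ c h j a d * h (j + 1) d b *
      Real.sqrt (μ (c (j + 1 + 1)) b)) * this

/-- **The trace formula.** -/
lemma Ex_cycle {μ : V → A → ℝ} (hμ : IsSource μ) (c : ℕ → V) (h : ℕ → A → A → ℝ) (l : ℕ)
    (hl : 1 ≤ l) (hcl : c l = c 0) (hc : ∀ i j, i < l → j < l → c i = c j → i = j) :
    Ex μ (fun x => ∏ i ∈ range l, h i (x (c i)) (x (c (i + 1)))) = (pr (ker μ c h) l).trace := by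
  obtain ⟨j, rfl⟩ : ∃ j, l = j + 1 := ⟨l - 1, by omega⟩
  have h1 := Ex_path hμ c h j (by
    intro i hi1 hi2 m hm hmi hcm
    rcases Nat.lt_or_ge m (j + 1) with h | h
    · exact hmi (hc m i h (by omega) hcm)
    · have : m = j + 1 := by omega
      subst this
      rw [hcl] at hcm
      have := hc 0 i (by omega) (by omega) hcm
      omega) (fun _ => 1) (fun _ _ _ _ _ => rfl)
  simp only [mul_one] at h1
  rw [h1]
  have h2 : (fun x : V → A => comp μ c h j (x (c 0)) (x (c (j + 1)))) =
      fun x => (fun a => comp μ c h j a a) (x (c 0)) := by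
    funext x
    rw [hcl]
  rw [h2, Ex_one_coord hμ (c 0) (fun a => comp μ c h j a a), Matrix.trace]
  refine Finset.sum_congr rfl (fun a _ => ?_)
  rw [Matrix.diag_apply, pr_ker hμ, hcl]
  have : Real.sqrt (μ (c 0) a) * Real.sqrt (μ (c 0) a) = μ (c 0) a :=
    Real.mul_self_sqrt ((hμ _).1 _)
  linear_combination (-(comp μ c h j a a)) * this

end Pool.Agent.H56.GL
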