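import Pool.Agent.H56.GL.Mat

set_option autoImplicit false
set_option linter.unusedSectionVars false

/-!
# The selection theorem
-/

namespace Pool.Agent.H56.GL

open Finset Matrix

variable {V A ι : Type} [Fintype V] [DecidableEq V] [Fintype A] [DecidableEq A]

lemma Ex_mono {μ : V → A → ℝ} (hμ : IsSource μ) {F G : (V → A) → ℝ} (h : ∀ x, F x ≤ G x) :
    Ex μ F ≤ Ex μ G :=
  Finset.sum_le_sum (fun x _ => mul_le_mul_of_nonneg_left (h x) (wt_nonneg hμ x))

/-- A quarter of the pairs goes from one side of some partition to the other side. -/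
lemma exists_cut [Fintype ι] [DecidableEq ι] (s t : ι → V) (hst : ∀ e, s e ≠ t e) :
    ∃ L : V → Bool, Fintype.card ι ≤
      4 * (univ.filter (fun e => L (s e) = true ∧ L (t e) = false)).card := by
  by_contra hcon
  push Not at hcon
  let μ : V → Bool → ℝ := fun _ _ => 1 / 2
  have hμ : IsSource μ := fun v => ⟨fun a => by simp [μ], by simp [μ]⟩
  have h1 : Ex μ (fun L => ∑ e : ι, (if L (s e) = true ∧ L (t e) = false then (1 : ℝ) else 0)) =
      Fintype.card ι / 4 := by
    rw [Ex_sum]
    have : ∀ e : ι, Ex μ (fun L => if L (s e) = true ∧ L (t e) = false then (1 : ℝ) else 0) =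
        1 / 4 := by
      intro e
      rw [Ex_two_coord hμ (hst e) (fun a b => if a = true ∧ b = false then (1 : ℝ) else 0)]
      simp [μ]
      norm_num
    rw [Finset.sum_congr rfl (fun e _ => this e)]
    simp
    ring
  have h2 : Ex μ (fun L => ∑ e : ι, (if L (s e) = true ∧ L (t e) = false then (1 : ℝ) else 0)) ≤
      Ex μ (fun _ => ((Fintype.card ι : ℝ) - 1) / 4) := by
    apply Ex_mono hμ
    intro L
    rw [Finset.sum_boole]
    have := hcon L
    have h3 : (4 : ℝ) * ((univ.filter (fun e => L (s e) = true ∧ L (t e) = false)).card : ℝ) + 1 ≤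
        Fintype.card ι := by exact_mod_cast this
    linarith
  rw [h1, Ex_const hμ] at h2
  linarith

/-- the kernel of the function `h e` of the sources `s e`, `t e` -/
noncomputable def K (μ : V → A → ℝ) (s t : ι → V) (h : ι → A → A → ℝ) (e : ι) : A → A → ℝ :=
  fun a b => Real.sqrt (μ (s e) a) * h e a b * Real.sqrt (μ (t e) b)

lemma K_mem {μ : V → A → ℝ} (hμ : IsSource μ) {s t : ι → V} (hst : ∀ e, s e ≠ t e)
    {h : ι → A → A → ℝ} (hn : ∀ e, Ex μ (fun x => h e (x (s e)) (x (t e)) ^ 2) = 1) (e : ι) :
    K μ s t h e ∈ Sph A := by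
  change ∑ a, ∑ b, (K μ s t h e a b) ^ 2 = 1
  rw [← hn e, Ex_two_coord hμ (hst e) (fun a b => h e a b ^ 2)]
  refine Finset.sum_congr rfl (fun a _ => Finset.sum_congr rfl (fun b _ => ?_))
  unfold K
  rw [mul_pow, mul_pow, Real.sq_sqrt ((hμ _).1 _), Real.sq_sqrt ((hμ _).1 _)]
  ring

lemma cyc_value {μ : V → A → ℝ} (hμ : IsSource μ) (s t : ι → V) (h : ι → A → A → ℝ) (l : ℕ)
    (hl : 1 ≤ l) (c : ℕ → V) (e : ℕ → ι) (hcl : c l = c 0)
    (hc : ∀ i j, i < l → j < l → c i = c j → i = j)
    (hp : ∀ i < l, (Even i → s (e i) = c i ∧ t (e i) = c (i + 1)) ∧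
      (¬ Even i → s (e i) = c (i + 1) ∧ t (e i) = c i)) :
    Ex μ (fun x => ∏ i ∈ range l, h (e i) (x (s (e i))) (x (t (e i)))) =
      tr l (fun i => K μ s t h (e i)) := by
  let h' : ℕ → A → A → ℝ := fun i a b => if Even i then h (e i) a b else h (e i) b a
  have h1 : (fun x : V → A => ∏ i ∈ range l, h (e i) (x (s (e i))) (x (t (e i)))) =
      fun x => ∏ i ∈ range l, h' i (x (c i)) (x (c (i + 1))) := by
    funext x
    refine Finset.prod_congr rfl (fun i hi => ?_)
    obtain ⟨p1, p2⟩ := hp i (Finset.mem_range.1 hi)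
    by_cases hev : Even i
    · obtain ⟨q1, q2⟩ := p1 hev
      simp only [h', hev, if_true, q1, q2]
    · obtain ⟨q1, q2⟩ := p2 hev
      simp only [h', hev, if_false, q1, q2]
  rw [h1, Ex_cycle hμ c h' l hl hcl hc]
  unfold tr
  congr 1
  refine pr_congr l (fun i hi => ?_)
  obtain ⟨p1, p2⟩ := hp i hi
  unfold alt
  by_cases hev : Even i
  · obtain ⟨q1, q2⟩ := p1 hev
    rw [if_pos hev]
    ext a b
    simp only [ker, Matrix.of_apply, h', hev, if_true, K, q1, q2]
  · obtain ⟨q1, q2⟩ := p2 hev
    rw [if_neg hev]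
    ext a b
    simp only [ker, Matrix.of_apply, Matrix.transpose_apply, h', hev, if_false, K, q1, q2]
    ring

/-- `T` has no short cycles: no closed walk along different members of `T` through
different sources -/
def NoCyc (k : ℕ) (s t : ι → V) (T : Finset ι) : Prop :=
  ∀ l : ℕ, 2 ≤ l → l ≤ k → ∀ (c : ℕ → V) (e : ℕ → ι), c l = c 0 →
    (∀ i j, i < l → j < l → c i = c j → i = j) → (∀ i j, i < l → j < l → e i = e j → i = j) →
    (∀ i < l, e i ∈ T ∧ ((s (e i) = c i ∧ t (e i) = c (i + 1)) ∨
      (s (e i) = c (i + 1) ∧ t (e i) = c i))) → False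

/-- **The selection theorem.** -/
theorem select (A : Type) [Fintype A] [DecidableEq A] (k : ℕ) : ∃ c : ℝ, 0 < c ∧ ∃ C : ℕ,
    ∀ (V : Type) [Fintype V] [DecidableEq V] (ι : Type) [Fintype ι] [DecidableEq ι]
      (μ : V → A → ℝ), IsSource μ → ∀ (s t : ι → V), (∀ e, s e ≠ t e) →
      ∀ h : ι → A → A → ℝ, (∀ e, Ex μ (fun x => h e (x (s e)) (x (t e)) ^ 2) = 1) →
      (∀ F : Finset ι, F.Nonempty → F.card ≤ k →
        |Ex μ (fun x => ∏ e ∈ F, h e (x (s e)) (x (t e)))| < c) →
      ∃ T : Finset ι, Fintype.card ι ≤ C * T.card ∧ NoCyc k s t T := by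
  obtain ⟨c, hc, M, cls, hcls⟩ := colouring A k
  refine ⟨c, hc, 4 * (M + 1), ?_⟩
  intro V _ _ ι _ _ μ hμ s t hst h hn hF
  obtain ⟨L, hL⟩ := exists_cut s t hst
  set E := univ.filter (fun e => L (s e) = true ∧ L (t e) = false) with hE
  obtain ⟨m, -, hm⟩ : ∃ m ∈ (univ : Finset (Fin (M + 1))),
      (∀ m' ∈ (univ : Finset (Fin (M + 1))), (E.filter (fun e => cls (K μ s t h e) = m')).card ≤
        (E.filter (fun e => cls (K μ s t h e) = m)).card) :=
    Finset.exists_max_image univ _ ⟨0, mem_univ _⟩
  refine ⟨E.filter (fun e => cls (K μ s t h e) = m), ?_, ?_⟩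
  · have h1 : E.card = ∑ m' : Fin (M + 1), (E.filter (fun e => cls (K μ s t h e) = m')).card :=
      Finset.card_eq_sum_card_fiberwise (fun e _ => mem_univ _)
    have h2 : E.card ≤ (M + 1) * (E.filter (fun e => cls (K μ s t h e) = m)).card := by
      rw [h1]
      refine (Finset.sum_le_card_nsmul _ _ _ (fun m' hm' => hm m' hm')).trans ?_
      simp
    calc Fintype.card ι ≤ 4 * E.card := hL
      _ ≤ 4 * ((M + 1) * (E.filter (fun e => cls (K μ s t h e) = m)).card) := by gcongr
      _ = _ := by ring
  · intro l hl2 hlk c' e hcl hcinj heinj hE'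
    have hT : ∀ i < l, L (s (e i)) = true ∧ L (t (e i)) = false ∧ cls (K μ s t h (e i)) = m := by
      intro i hi
      have := (hE' i hi).1
      simp only [hE, Finset.mem_filter, Finset.mem_univ, true_and] at this
      exact ⟨this.1.1, this.1.2, this.2⟩
    -- the sides alternate
    have hside : ∀ i < l, L (c' (i + 1)) = !(L (c' i)) := by
      intro i hi
      obtain ⟨a1, a2, -⟩ := hT i hi
      rcases (hE' i hi).2 with ⟨b1, b2⟩ | ⟨b1, b2⟩
      · rw [b1] at a1; rw [b2] at a2; rw [a1, a2]; rfl
      · rw [b1] at a1; rw [b2] at a2; rw [a1, a2]; rfl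
    have hpar : ∀ i, i ≤ l → L (c' i) = if Even i then L (c' 0) else !(L (c' 0)) := by
      intro i
      induction i with
      | zero => intro _; simp
      | succ i ih =>
        intro hi
        rw [hside i (by omega), ih (by omega)]
        by_cases hev : Even i
        · have : ¬ Even (i + 1) := by simpa [Nat.even_add_one] using hev
          simp [hev, this]
        · have : Even (i + 1) := by simpa [Nat.even_add_one] using hev
          simp [hev, this]
    have hlev : Even l := by
      by_contra hne
      have := hpar l le_rfl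
      rw [if_neg hne, hcl] at this
      cases hx : L (c' 0) <;> rw [hx] at this <;> simp at this
    obtain ⟨r, hr⟩ := hlev
    have hr2 : l = 2 * r := by omega
    -- the product
    have hprod : (fun x : V → A => ∏ f ∈ (range l).image e, h f (x (s f)) (x (t f))) =
        fun x => ∏ i ∈ range l, h (e i) (x (s (e i))) (x (t (e i))) := by
      funext x
      rw [Finset.prod_image]
      intro i hi j hj hij
      exact heinj i j (by simpa using hi) (by simpa using hj) hij
    have hcard : ((range l).image e).card ≤ k :=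
      (Finset.card_image_le.trans (by simp)).trans hlk
    have hne : ((range l).image e).Nonempty := ⟨e 0, Finset.mem_image.2 ⟨0, by simp; omega, rfl⟩⟩
    have hsmall := hF _ hne hcard
    rw [hprod] at hsmall
    -- a sequence in the class
    let e' : ℕ → ι := fun i => if i < l then e i else e 0
    have he' : ∀ i, L (s (e' i)) = true ∧ L (t (e' i)) = false ∧ cls (K μ s t h (e' i)) = m := by
      intro i
      by_cases hi : i < l
      · simp only [e', hi, if_true]; exact hT i hi
      · simp only [e', hi, if_false]; exact hT 0 (by omega)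
    obtain ⟨g1, g2⟩ := hcls (fun i => K μ s t h (e' i)) (fun i => K_mem hμ hst hn _)
      (fun i j => by rw [(he' i).2.2, (he' j).2.2]) r (by omega) (by omega)
    rw [← hr2] at g1 g2
    cases h0 : L (c' 0) with
    | true =>
      have hval := cyc_value hμ s t h l (by omega) c' e hcl hcinj (by
        intro i hi
        obtain ⟨a1, a2, -⟩ := hT i hi
        have hp := hpar i (by omega)
        rw [h0] at hp
        constructor
        · intro hev
          rw [if_pos hev] at hp
          rcases (hE' i hi).2 with b | ⟨b1, b2⟩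
          · exact b
          · rw [b2, hp] at a2; cases a2
        · intro hev
          rw [if_neg hev] at hp
          rcases (hE' i hi).2 with ⟨b1, b2⟩ | b
          · rw [b1, hp] at a1; cases a1
          · exact b)
      rw [hval, tr_congr l (G' := fun i => K μ s t h (e' i)) (fun i hi => by simp [e', hi])] at hsmall
      exact absurd (abs_lt.1 hsmall).2 (not_lt.2 g1)
    | false =>
      have hval := cyc_value hμ t s (fun f a b => h f b a) l (by omega) c' e hcl hcinj (by
        intro i hi
        obtain ⟨a1, a2, -⟩ := hT i hi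
        have hp := hpar i (by omega)
        rw [h0] at hp
        constructor
        · intro hev
          rw [if_pos hev] at hp
          rcases (hE' i hi).2 with ⟨b1, b2⟩ | b
          · rw [b1, hp] at a1; cases a1
          · exact ⟨b.2, b.1⟩
        · intro hev
          rw [if_neg hev] at hp
          rcases (hE' i hi).2 with b | ⟨b1, b2⟩
          · exact ⟨b.2, b.1⟩
          · rw [b2, hp] at a2; cases a2)
      rw [hval, tr_congr l (G' := fun i a b => K μ s t h (e' i) b a) (fun i hi => by
        funext a b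
        simp only [e', hi, if_true, K]
        ring)] at hsmall
      exact absurd (abs_lt.1 hsmall).2 (not_lt.2 g2)

end Pool.Agent.H56.GL
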