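import Pool.Agent.H56.GL.Graph

set_option autoImplicit false
set_option linter.unusedSectionVars false

/-!
# Independent events
-/

namespace Pool.Agent.H56.GL

open Finset

variable {V A ι : Type} [Fintype V] [DecidableEq V] [Fintype A] [DecidableEq A]

/-- The probability of the event `B`. -/
noncomputable def prob (μ : V → A → ℝ) (B : Set (V → A)) : ℝ :=
  ∑ x, B.indicator (fun x => ∏ v, μ v (x v)) x

lemma prob_eq (μ : V → A → ℝ) (B : Set (V → A)) :
    prob μ B = Ex μ (fun x => B.indicator (fun _ => (1 : ℝ)) x) := by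
  classical
  unfold prob Ex wt
  refine Finset.sum_congr rfl (fun x _ => ?_)
  by_cases h : x ∈ B <;> simp [h]

lemma prod_indicator (B : ι → Set (V → A)) (F : Finset ι) (x : V → A) :
    ∏ e ∈ F, (B e).indicator (fun _ => (1 : ℝ)) x =
      (⋂ e ∈ F, B e).indicator (fun _ => (1 : ℝ)) x := by
  classical
  by_cases h : x ∈ ⋂ e ∈ F, B e
  · rw [Set.indicator_of_mem h]
    refine Finset.prod_eq_one (fun e he => ?_)
    rw [Set.indicator_of_mem (Set.mem_iInter₂.1 h e he)]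
  · rw [Set.indicator_of_notMem h]
    rw [Set.mem_iInter₂] at h
    push Not at h
    obtain ⟨e, he, hx⟩ := h
    exact Finset.prod_eq_zero he (Set.indicator_of_notMem hx _)

lemma Ex_prod_sub [DecidableEq ι] (μ : V → A → ℝ) (B : ι → Set (V → A)) (p : ι → ℝ)
    (F : Finset ι) :
    Ex μ (fun x => ∏ e ∈ F, ((B e).indicator (fun _ => (1 : ℝ)) x - p e)) =
      ∑ S ∈ F.powerset, prob μ (⋂ e ∈ S, B e) * ∏ e ∈ F \ S, (- p e) := by
  have h1 : (fun x : V → A => ∏ e ∈ F, ((B e).indicator (fun _ => (1 : ℝ)) x - p e)) =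
      fun x => ∑ S ∈ F.powerset, (∏ e ∈ F \ S, (- p e)) *
        (⋂ e ∈ S, B e).indicator (fun _ => (1 : ℝ)) x := by
    funext x
    simp only [sub_eq_add_neg]
    rw [Finset.prod_add]
    refine Finset.sum_congr rfl (fun S _ => ?_)
    rw [prod_indicator]
    ring
  rw [h1, Ex_sum]
  refine Finset.sum_congr rfl (fun S _ => ?_)
  rw [Ex_mul_left, prob_eq]
  ring

lemma prob_nonneg {μ : V → A → ℝ} (hμ : IsSource μ) (B : Set (V → A)) : 0 ≤ prob μ B := by
  classical
  refine Finset.sum_nonneg (fun x _ => ?_)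
  exact Set.indicator_nonneg (fun x _ => wt_nonneg hμ x) x

lemma Ex_prod_sub_le [DecidableEq ι] {μ : V → A → ℝ} (B : ι → Set (V → A))
    (F : Finset ι) (hF : F.Nonempty) (ε : ℝ) (hp : ∀ e, 0 ≤ prob μ (B e) ∧ prob μ (B e) ≤ 1)
    (hind : ∀ S ⊆ F, |prob μ (⋂ e ∈ S, B e) - ∏ e ∈ S, prob μ (B e)| ≤ ε) :
    |Ex μ (fun x => ∏ e ∈ F, ((B e).indicator (fun _ => (1 : ℝ)) x - prob μ (B e)))| ≤
      2 ^ F.card * ε := by
  rw [Ex_prod_sub]
  have h0 : ∑ S ∈ F.powerset, (∏ e ∈ S, prob μ (B e)) * ∏ e ∈ F \ S, (- prob μ (B e)) = 0 := by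
    rw [← Finset.prod_add]
    obtain ⟨e, he⟩ := hF
    exact Finset.prod_eq_zero he (by ring)
  have h1 : ∑ S ∈ F.powerset, prob μ (⋂ e ∈ S, B e) * ∏ e ∈ F \ S, (- prob μ (B e)) =
      ∑ S ∈ F.powerset, (prob μ (⋂ e ∈ S, B e) - ∏ e ∈ S, prob μ (B e)) *
        ∏ e ∈ F \ S, (- prob μ (B e)) := by
    have : ∀ S ∈ F.powerset, (prob μ (⋂ e ∈ S, B e) - ∏ e ∈ S, prob μ (B e)) *
        ∏ e ∈ F \ S, (- prob μ (B e)) = prob μ (⋂ e ∈ S, B e) * ∏ e ∈ F \ S, (- prob μ (B e)) -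
        (∏ e ∈ S, prob μ (B e)) * ∏ e ∈ F \ S, (- prob μ (B e)) := fun S _ => by ring
    rw [Finset.sum_congr rfl this, Finset.sum_sub_distrib, h0, sub_zero]
  rw [h1]
  refine (Finset.abs_sum_le_sum_abs _ _).trans ?_
  have h2 : ∀ S ∈ F.powerset, |(prob μ (⋂ e ∈ S, B e) - ∏ e ∈ S, prob μ (B e)) *
      ∏ e ∈ F \ S, (- prob μ (B e))| ≤ ε := by
    intro S hS
    rw [abs_mul]
    have h3 : |∏ e ∈ F \ S, (- prob μ (B e))| ≤ 1 := by
      rw [Finset.abs_prod]
      refine Finset.prod_le_one (fun e _ => abs_nonneg _) (fun e _ => ?_)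
      rw [abs_neg, abs_of_nonneg (hp e).1]
      exact (hp e).2
    calc _ ≤ |prob μ (⋂ e ∈ S, B e) - ∏ e ∈ S, prob μ (B e)| * 1 := by gcongr
      _ ≤ ε := by rw [mul_one]; exact hind S (Finset.mem_powerset.1 hS)
  refine (Finset.sum_le_sum h2).trans ?_
  rw [Finset.sum_const, Finset.card_powerset, nsmul_eq_mul]
  push_cast
  exact le_rfl

/-- `B` is determined by the sources `u` and `w`. -/
def Local (B : Set (V → A)) (u w : V) : Prop :=
  ∀ x y : V → A, x u = y u → x w = y w → (x ∈ B ↔ y ∈ B)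

lemma Ex_sq {μ : V → A → ℝ} (hμ : IsSource μ) (B : Set (V → A)) :
    Ex μ (fun x => (B.indicator (fun _ => (1 : ℝ)) x - prob μ B) ^ 2) =
      prob μ B * (1 - prob μ B) := by
  have h1 : (fun x : V → A => (B.indicator (fun _ => (1 : ℝ)) x - prob μ B) ^ 2) =
      fun x => (1 - 2 * prob μ B) * B.indicator (fun _ => (1 : ℝ)) x + prob μ B ^ 2 := by
    funext x
    by_cases h : x ∈ B
    · rw [Set.indicator_of_mem h]; ring
    · rw [Set.indicator_of_notMem h]; ring
  rw [h1, Ex_add, Ex_mul_left, ← prob_eq, Ex_const hμ]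
  ring

/-- the general form for events -/
theorem events (A : Type) [Fintype A] [DecidableEq A] (k : ℕ) : ∃ C : ℕ, ∀ v : ℝ, 0 < v →
    ∃ δ : ℝ, 0 < δ ∧ ∀ (V : Type) [Fintype V] [DecidableEq V] (ι : Type) [Fintype ι]
      [DecidableEq ι] (μ : V → A → ℝ), IsSource μ → ∀ (s t : ι → V), (∀ e, s e ≠ t e) →
      ∀ B : ι → Set (V → A), (∀ e, Local (B e) (s e) (t e)) →
      (∀ e, 0 < prob μ (B e) ∧ prob μ (B e) < 1) →
      ((∀ F : Finset ι, F.card ≤ k → prob μ (⋂ e ∈ F, B e) = ∏ e ∈ F, prob μ (B e)) ∨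
        ((∀ e, v ≤ prob μ (B e) ∧ prob μ (B e) ≤ 1 - v) ∧
          ∀ F : Finset ι, F.card ≤ k →
            |prob μ (⋂ e ∈ F, B e) - ∏ e ∈ F, prob μ (B e)| ≤ δ)) →
      ∃ T : Finset ι, Fintype.card ι ≤ C * T.card ∧ NoCyc k s t T := by
  obtain ⟨c, hc, C, hC⟩ := select A k
  refine ⟨C, fun v hv => ⟨c / 2 * (v / 2) ^ k, by positivity, ?_⟩⟩
  intro V _ _ ι _ _ μ hμ s t hst B hloc hpos hind
  by_cases hι : IsEmpty ι
  · exact ⟨∅, by simp, fun l hl2 _ _ e _ _ _ _ => (hι.false (e 0)).elim⟩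
  rw [not_isEmpty_iff] at hι
  obtain ⟨e0⟩ := hι
  -- a value of the sources
  obtain ⟨x0⟩ : Nonempty (V → A) := by
    by_contra hne
    rw [not_nonempty_iff] at hne
    have := (hpos e0).1
    simp [prob] at this
  let p : ι → ℝ := fun e => prob μ (B e)
  let σ : ι → ℝ := fun e => Real.sqrt (p e * (1 - p e))
  have hpp : ∀ e, 0 < p e * (1 - p e) := fun e => mul_pos (hpos e).1 (by have := (hpos e).2; linarith)
  have hσ : ∀ e, 0 < σ e := fun e => Real.sqrt_pos.2 (hpp e)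
  let h : ι → A → A → ℝ := fun e a b =>
    ((B e).indicator (fun _ => (1 : ℝ)) (Function.update (Function.update x0 (s e) a) (t e) b) -
      p e) / σ e
  have hh : ∀ e (x : V → A), h e (x (s e)) (x (t e)) =
      ((B e).indicator (fun _ => (1 : ℝ)) x - p e) / σ e := by
    intro e x
    have h1 : Function.update (Function.update x0 (s e) (x (s e))) (t e) (x (t e)) ∈ B e ↔
        x ∈ B e := by
      apply hloc e
      · rw [Function.update_of_ne (hst e), Function.update_self]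
      · rw [Function.update_self]
    simp only [h]
    congr 2
    by_cases hx : x ∈ B e
    · rw [Set.indicator_of_mem hx, Set.indicator_of_mem (h1.2 hx)]
    · rw [Set.indicator_of_notMem hx, Set.indicator_of_notMem (fun h' => hx (h1.1 h'))]
  have hn : ∀ e, Ex μ (fun x => h e (x (s e)) (x (t e)) ^ 2) = 1 := by
    intro e
    have h1 : (fun x : V → A => h e (x (s e)) (x (t e)) ^ 2) =
        fun x => (p e * (1 - p e))⁻¹ * ((B e).indicator (fun _ => (1 : ℝ)) x - p e) ^ 2 := by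
      funext x
      rw [hh, div_pow, Real.sq_sqrt (hpp e).le]
      ring
    rw [h1, Ex_mul_left, Ex_sq hμ, inv_mul_cancel₀ (hpp e).ne']
  have hprod : ∀ F : Finset ι, Ex μ (fun x => ∏ e ∈ F, h e (x (s e)) (x (t e))) =
      (∏ e ∈ F, σ e)⁻¹ *
        Ex μ (fun x => ∏ e ∈ F, ((B e).indicator (fun _ => (1 : ℝ)) x - p e)) := by
    intro F
    rw [← Ex_mul_left]
    congr 1
    funext x
    rw [← Finset.prod_inv_distrib, ← Finset.prod_mul_distrib]
    exact Finset.prod_congr rfl (fun e _ => by rw [hh]; ring)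
  have hp01 : ∀ e, 0 ≤ prob μ (B e) ∧ prob μ (B e) ≤ 1 := fun e => ⟨(hpos e).1.le, (hpos e).2.le⟩
  refine hC V ι μ hμ s t hst h hn (fun F hF hFk => ?_)
  rw [hprod F, abs_mul, abs_inv]
  have hσF : 0 < ∏ e ∈ F, σ e := Finset.prod_pos (fun e _ => hσ e)
  rw [abs_of_pos hσF]
  rcases hind with hex | ⟨hv', hap⟩
  · have := Ex_prod_sub_le (μ := μ) B F hF 0 hp01 (fun S hS => by
      rw [hex S ((Finset.card_le_card hS).trans hFk)]; simp)
    rw [mul_zero] at this
    rw [le_antisymm this (abs_nonneg _), mul_zero]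
    exact hc
  · have h1 := Ex_prod_sub_le (μ := μ) B F hF (c / 2 * (v / 2) ^ k) hp01
      (fun S hS => hap S ((Finset.card_le_card hS).trans hFk))
    have hv1 : v ≤ 1 / 2 := by have := hv' e0; linarith [this.1, this.2]
    have hσv : ∀ e, v ≤ σ e := by
      intro e
      apply Real.le_sqrt_of_sq_le
      have h2 := hv' e
      have h3 : v ≤ 1 - p e := by have : p e ≤ 1 - v := h2.2; linarith
      calc v ^ 2 = v * v := by ring
        _ ≤ p e * (1 - p e) := mul_le_mul h2.1 h3 hv.le (hv.le.trans h2.1)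
    have h4 : v ^ F.card ≤ ∏ e ∈ F, σ e := by
      rw [← Finset.prod_const]
      exact Finset.prod_le_prod (fun _ _ => hv.le) (fun e _ => hσv e)
    have h5 : (∏ e ∈ F, σ e)⁻¹ ≤ (v ^ k)⁻¹ := by
      apply inv_anti₀ (by positivity)
      exact (pow_le_pow_of_le_one hv.le (by linarith) hFk).trans h4
    have h6 : (2 : ℝ) ^ F.card ≤ 2 ^ k := pow_le_pow_right₀ (by norm_num) hFk
    calc (∏ e ∈ F, σ e)⁻¹ *
          |Ex μ (fun x => ∏ e ∈ F, ((B e).indicator (fun _ => (1 : ℝ)) x - p e))|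
        ≤ (v ^ k)⁻¹ * (2 ^ k * (c / 2 * (v / 2) ^ k)) := by
          apply mul_le_mul h5 (h1.trans _) (abs_nonneg _) (by positivity)
          gcongr
      _ = c / 2 := by
          have : v ^ k ≠ 0 := by positivity
          rw [div_pow]
          field_simp
      _ < c := by linarith

end Pool.Agent.H56.GL
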