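import Pool.Agent.H56.GL.Core

set_option autoImplicit false
set_option linter.unusedSectionVars false

/-!
# The graph of the pairs of sources
-/

namespace Pool.Agent.H56.GL

open Finset

variable {V ι : Type}

/-- The graph of the pairs of sources `{s e, t e}`, `e ∈ T`. -/
def pairGraph (s t : ι → V) (T : Finset ι) : SimpleGraph V where
  Adj u w := u ≠ w ∧ ∃ e ∈ T, (s e = u ∧ t e = w) ∨ (s e = w ∧ t e = u)
  symm := ⟨fun _ _ ⟨h, e, he, h'⟩ => ⟨h.symm, e, he, h'.symm⟩⟩
  loopless := ⟨fun _ h => h.1 rfl⟩

lemma NoCyc.inj {k : ℕ} {s t : ι → V} {T : Finset ι} (h : NoCyc k s t T) (hk : 2 ≤ k)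
    (hst : ∀ e, s e ≠ t e) {e e' : ι} (he : e ∈ T) (he' : e' ∈ T)
    (hee : (s e = s e' ∧ t e = t e') ∨ (s e = t e' ∧ t e = s e')) : e = e' := by
  by_contra hne
  refine h 2 le_rfl hk (fun i => if i = 1 then t e else s e) (fun i => if i = 0 then e else e')
    (by simp) ?_ ?_ ?_
  · intro i j hi hj hij
    by_cases h1 : i = 1 <;> by_cases h2 : j = 1 <;> simp only [h1, h2, if_true, if_false] at hij
    · omega
    · exact absurd hij.symm (hst e)
    · exact absurd hij (hst e)
    · omega
  · intro i j hi hj hij
    by_cases h1 : i = 0 <;> by_cases h2 : j = 0 <;> simp only [h1, h2, if_true, if_false] at hij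
    · omega
    · exact absurd hij hne
    · exact absurd hij.symm hne
    · omega
  · intro i hi
    have : i = 0 ∨ i = 1 := by omega
    rcases this with rfl | rfl
    · exact ⟨by simpa using he, Or.inl ⟨by simp, by simp⟩⟩
    · refine ⟨by simpa using he', ?_⟩
      simp only [one_ne_zero, if_false, if_true]
      rcases hee with ⟨h1, h2⟩ | ⟨h1, h2⟩
      · exact Or.inr ⟨by simp [h1], by simp [h2]⟩
      · exact Or.inl ⟨by simp [h2], by simp [h1]⟩

lemma NoCyc.girth {k : ℕ} {s t : ι → V} {T : Finset ι} (h : NoCyc k s t T) :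
    ((k : ℕ) : ℕ∞) < (pairGraph s t T).egirth := by
  have h1 : ((k + 1 : ℕ) : ℕ∞) ≤ (pairGraph s t T).egirth := by
    rw [SimpleGraph.le_egirth]
    intro a p hp
    by_contra hcon
    have hlen : p.length ≤ k := by
      by_contra hk
      apply hcon
      exact_mod_cast Nat.lt_of_not_le hk
    have h3 := hp.three_le_length
    have hadj : ∀ i, i < p.length → ∃ e, e ∈ T ∧
        ((s e = p.getVert i ∧ t e = p.getVert (i + 1)) ∨
          (s e = p.getVert (i + 1) ∧ t e = p.getVert i)) := by
      intro i hi
      obtain ⟨-, e, he, h'⟩ := p.adj_getVert_succ hi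
      exact ⟨e, he, h'⟩
    obtain ⟨e0, -⟩ := hadj 0 (by omega)
    have : Nonempty ι := ⟨e0⟩
    choose! e heT he using hadj
    have hinj : ∀ i j, i < p.length → j < p.length → p.getVert i = p.getVert j → i = j := by
      intro i j hi hj hij
      exact hp.getVert_injOn' (by simp only [Set.mem_ofPred_eq]; omega)
        (by simp only [Set.mem_ofPred_eq]; omega) hij
    have hcl : p.getVert p.length = p.getVert 0 := by simp
    refine h p.length (by omega) hlen p.getVert e hcl hinj ?_ (fun i hi => ⟨heT i hi, he i hi⟩)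
    -- the members are different
    have key : ∀ i j, i < j → j < p.length → e i ≠ e j := by
      intro i j hij hj hee
      have hcases : (p.getVert i = p.getVert j) ∨
          (p.getVert i = p.getVert (j + 1) ∧ p.getVert (i + 1) = p.getVert j) := by
        rcases he i (by omega) with ⟨a1, a2⟩ | ⟨a1, a2⟩ <;>
        rcases he j hj with ⟨b1, b2⟩ | ⟨b1, b2⟩ <;> rw [hee] at a1 a2
        · exact Or.inl (a1.symm.trans b1)
        · exact Or.inr ⟨a1.symm.trans b1, a2.symm.trans b2⟩
        · exact Or.inr ⟨a2.symm.trans b2, a1.symm.trans b1⟩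
        · exact Or.inl (a2.symm.trans b2)
      rcases hcases with h1 | ⟨h1, h2⟩
      · exact absurd (hinj i j (by omega) hj h1) (by omega)
      · have h4 := hinj (i + 1) j (by omega) hj h2
        rcases Nat.lt_or_ge (j + 1) p.length with h5 | h5
        · exact absurd (hinj i (j + 1) (by omega) h5 h1) (by omega)
        · have h6 : j + 1 = p.length := by omega
          rw [h6, hcl] at h1
          have := hinj i 0 (by omega) (by omega) h1
          omega
    intro i j hi hj hij
    rcases Nat.lt_trichotomy i j with h1 | h1 | h1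
    · exact absurd hij (key i j h1 hj)
    · exact h1
    · exact absurd hij.symm (key j i h1 hi)
  refine lt_of_lt_of_le ?_ h1
  exact_mod_cast Nat.lt_succ_self k

end Pool.Agent.H56.GL
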