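import Pool.Agent.H56.GL.Exp

set_option autoImplicit false
set_option linter.unusedSectionVars false

/-!
# Alternating traces and a finite colouring of the sphere of matrices
-/

namespace Pool.Agent.H56.GL

open Finset Matrix Topology Filter

variable {A : Type} [Fintype A] [DecidableEq A]

/-- alternate a sequence of matrices with transposes -/
def alt (G : ℕ → A → A → ℝ) (i : ℕ) : Matrix A A ℝ :=
  if Even i then Matrix.of (G i) else (Matrix.of (G i))ᵀ

/-- the alternating trace -/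
noncomputable def tr (l : ℕ) (G : ℕ → A → A → ℝ) : ℝ := (pr (alt G) l).trace

lemma pr_congr {G G' : ℕ → Matrix A A ℝ} (l : ℕ) (h : ∀ i < l, G i = G' i) : pr G l = pr G' l := by
  induction l with
  | zero => rfl
  | succ j ih => rw [pr, pr, ih (fun i hi => h i (by omega)), h j (by omega)]

lemma tr_congr {G G' : ℕ → A → A → ℝ} (l : ℕ) (h : ∀ i < l, G i = G' i) : tr l G = tr l G' := by
  unfold tr
  rw [pr_congr (G' := alt G') l (fun i hi => by unfold alt; rw [h i hi])]

lemma pr_alt_const (H : A → A → ℝ) (r : ℕ) :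
    pr (alt fun _ => H) (2 * r) = (Matrix.of H * (Matrix.of H)ᵀ) ^ r := by
  induction r with
  | zero => simp [pr]
  | succ r ih =>
    rw [show 2 * (r + 1) = 2 * r + 1 + 1 from by ring, pr, pr, ih, pow_succ, alt, alt,
      if_pos (by simp), if_neg (by simp), Matrix.mul_assoc]

lemma pow_ne {P : Matrix A A ℝ} (hP : Pᵀ = P) (h0 : P ≠ 0) (r : ℕ) : P ^ r ≠ 0 := by
  have h2 : ∀ j : ℕ, P ^ (2 ^ j) ≠ 0 := by
    intro j
    induction j with
    | zero => simpa using h0
    | succ j ih =>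
      intro h
      apply ih
      have h3 : (P ^ (2 ^ j))ᴴ * P ^ (2 ^ j) = 0 := by
        rw [Matrix.conjTranspose_pow, Matrix.conjTranspose_eq_transpose_of_trivial, hP, ← pow_add]
        rw [← h]; congr 1; ring
      exact Matrix.conjTranspose_mul_self_eq_zero.1 h3
  intro h
  apply h2 r
  have : r ≤ 2 ^ r := Nat.lt_two_pow_self.le
  rw [← Nat.sub_add_cancel this, pow_add, h, mul_zero]

lemma tr_const_pos {H : A → A → ℝ} (h0 : H ≠ 0) (r : ℕ) : 0 < tr (2 * r) (fun _ => H) ∨ r = 0 := by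
  by_cases hr : r = 0
  · exact Or.inr hr
  left
  unfold tr
  rw [pr_alt_const]
  have hM : Matrix.of H ≠ 0 := by
    intro h
    apply h0
    funext a b
    have := congrFun (congrFun h a) b
    simpa using this
  have hps : (Matrix.of H * (Matrix.of H)ᵀ).PosSemidef := by
    have := Matrix.posSemidef_self_mul_conjTranspose (Matrix.of H)
    rwa [Matrix.conjTranspose_eq_transpose_of_trivial] at this
  have hP0 : Matrix.of H * (Matrix.of H)ᵀ ≠ 0 := by
    intro h
    apply hM
    rw [← Matrix.conjTranspose_eq_transpose_of_trivial] at h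
    exact Matrix.self_mul_conjTranspose_eq_zero.1 h
  have h1 : ((Matrix.of H * (Matrix.of H)ᵀ) ^ r).PosSemidef := hps.pow r
  have h2 : (Matrix.of H * (Matrix.of H)ᵀ) ^ r ≠ 0 := by
    apply pow_ne _ hP0
    rw [Matrix.transpose_mul, Matrix.transpose_transpose]
  rcases lt_or_eq_of_le h1.trace_nonneg with h | h
  · exact h
  · exact absurd (h1.trace_eq_zero_iff.1 h.symm) h2

lemma continuous_pr_alt (l : ℕ) : Continuous (fun G : ℕ → A → A → ℝ => pr (alt G) l) := by
  induction l with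
  | zero => exact continuous_const
  | succ l ih =>
    simp only [pr]
    refine ih.matrix_mul ?_
    unfold alt
    by_cases h : Even l
    · simp only [h, if_true]
      exact continuous_apply l
    · simp only [h, if_false]
      exact (continuous_apply l : Continuous fun G : ℕ → A → A → ℝ => G l).matrix_transpose

lemma continuous_tr (l : ℕ) : Continuous (tr (A := A) l) :=
  (continuous_pr_alt l).matrix_trace

lemma nbhd {H : A → A → ℝ} (h0 : H ≠ 0) (r : ℕ) (hr : 1 ≤ r) : ∃ c : ℝ, 0 < c ∧ ∃ U ∈ 𝓝 H,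
    ∀ G : ℕ → A → A → ℝ, (∀ i, G i ∈ U) → c < tr (2 * r) G := by
  have hp : 0 < tr (2 * r) (fun _ => H) := (tr_const_pos h0 r).resolve_right (by omega)
  have h1 : {G : ℕ → A → A → ℝ | tr (2 * r) (fun _ => H) / 2 < tr (2 * r) G} ∈
      𝓝 (fun _ : ℕ => H) :=
    (isOpen_lt continuous_const (continuous_tr (2 * r))).mem_nhds (by
      simp only [Set.mem_ofPred_eq]; linarith)
  rw [nhds_pi, Filter.mem_pi] at h1
  obtain ⟨I, hI, t, ht, hsub⟩ := h1
  refine ⟨_, half_pos hp, ⋂ i ∈ I, t i, (Filter.biInter_mem hI).2 (fun i _ => ht i), ?_⟩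
  intro G hG
  exact hsub (fun i hi => Set.mem_iInter₂.1 (hG i) i hi)

lemma nbhds {H : A → A → ℝ} (h0 : H ≠ 0) (k : ℕ) : ∃ c : ℝ, 0 < c ∧ ∃ U ∈ 𝓝 H,
    ∀ G : ℕ → A → A → ℝ, (∀ i, G i ∈ U) → ∀ r, 1 ≤ r → r ≤ k →
      c < tr (2 * r) G ∧ c < tr (2 * r) (fun i a b => G i b a) := by
  induction k with
  | zero => exact ⟨1, one_pos, Set.univ, Filter.univ_mem, fun G _ r hr hr' => by omega⟩
  | succ k ih =>
    obtain ⟨c, hc, U, hU, h⟩ := ih
    obtain ⟨c1, hc1, U1, hU1, h1⟩ := nbhd h0 (k + 1) (by omega)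
    have h0' : (fun a b => H b a) ≠ 0 := by
      intro h
      apply h0
      funext a b
      exact congrFun (congrFun h b) a
    obtain ⟨c2, hc2, U2, hU2, h2⟩ := nbhd h0' (k + 1) (by omega)
    have hcont : Continuous (fun G : A → A → ℝ => fun a b => G b a) := by fun_prop
    refine ⟨min c (min c1 c2), lt_min hc (lt_min hc1 hc2),
      U ∩ U1 ∩ ((fun G : A → A → ℝ => fun a b => G b a) ⁻¹' U2),
      Filter.inter_mem (Filter.inter_mem hU hU1) (hcont.continuousAt.preimage_mem_nhds hU2), ?_⟩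
    intro G hG r hr hr'
    rcases Nat.lt_or_ge r (k + 1) with hlt | hge
    · obtain ⟨a1, a2⟩ := h G (fun i => (hG i).1.1) r hr (by omega)
      exact ⟨lt_of_le_of_lt (min_le_left _ _) a1, lt_of_le_of_lt (min_le_left _ _) a2⟩
    · obtain rfl : r = k + 1 := by omega
      exact ⟨lt_of_le_of_lt ((min_le_right _ _).trans (min_le_left _ _))
          (h1 G (fun i => (hG i).1.2)),
        lt_of_le_of_lt ((min_le_right _ _).trans (min_le_right _ _))
          (h2 (fun i a b => G i b a) (fun i => (hG i).2))⟩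

/-- the unit sphere -/
def Sph (A : Type) [Fintype A] : Set (A → A → ℝ) := {G | ∑ a, ∑ b, G a b ^ 2 = 1}

lemma isCompact_Sph : IsCompact (Sph A) := by
  apply Metric.isCompact_of_isClosed_isBounded
  · apply isClosed_eq _ continuous_const
    fun_prop
  · refine (Metric.isBounded_iff_subset_closedBall (0 : A → A → ℝ)).2 ⟨1, ?_⟩
    intro G hG
    rw [mem_closedBall_zero_iff, pi_norm_le_iff_of_nonneg zero_le_one]
    intro a
    rw [pi_norm_le_iff_of_nonneg zero_le_one]
    intro b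
    rw [Real.norm_eq_abs, abs_le_one_iff_mul_self_le_one, ← sq]
    rw [← show ∑ a, ∑ b, G a b ^ 2 = 1 from hG]
    refine le_trans ?_ (Finset.single_le_sum (f := fun a => ∑ b, G a b ^ 2)
      (fun i _ => Finset.sum_nonneg (fun j _ => sq_nonneg _)) (mem_univ a))
    exact Finset.single_le_sum (f := fun b => G a b ^ 2) (fun j _ => sq_nonneg _) (mem_univ b)

/-- **A finite colouring of the sphere** with large alternating traces of monochromatic
sequences. -/
lemma colouring (A : Type) [Fintype A] [DecidableEq A] (k : ℕ) :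
    ∃ c : ℝ, 0 < c ∧ ∃ (M : ℕ) (cls : (A → A → ℝ) → Fin (M + 1)),
      ∀ G : ℕ → A → A → ℝ, (∀ i, G i ∈ Sph A) → (∀ i j, cls (G i) = cls (G j)) →
        ∀ r, 1 ≤ r → r ≤ k → c ≤ tr (2 * r) G ∧ c ≤ tr (2 * r) (fun i a b => G i b a) := by
  classical
  have hne : ∀ H ∈ Sph A, H ≠ 0 := by
    intro H hH h
    have : ∑ a, ∑ b, H a b ^ 2 = 1 := hH
    simp [h] at this
  choose! c hc U hU h using fun (H : A → A → ℝ) (hH : H ∈ Sph A) => nbhds (hne H hH) k
  obtain ⟨t, htS, ht⟩ := isCompact_Sph.elim_nhds_subcover U hU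
  by_cases hte : t.Nonempty
  · -- index the centres
    obtain ⟨M, hM⟩ : ∃ M, t.card = M + 1 := ⟨t.card - 1, by have := hte.card_pos; omega⟩
    let e : t ≃ Fin (M + 1) := t.equivFinOfCardEq hM
    have hex : ∀ G ∈ Sph A, ∃ H : t, G ∈ U H := by
      intro G hG
      obtain ⟨H, hH, hGH⟩ := Set.mem_iUnion₂.1 (ht hG)
      exact ⟨⟨H, hH⟩, hGH⟩
    obtain ⟨H1, hH1⟩ := hte
    have : Nonempty t := ⟨⟨H1, hH1⟩⟩
    choose! ctr hctr using hex
    refine ⟨t.inf' ⟨H1, hH1⟩ c, (Finset.lt_inf'_iff _).2 (fun H hH => hc H (htS H hH)), M,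
      fun G => if hG : G ∈ Sph A then e (ctr G) else 0, ?_⟩
    intro G hG hcl r hr hrk
    have h0 : ∀ i, ctr (G i) = ctr (G 0) := by
      intro i
      have := hcl i 0
      simp only [dif_pos (hG i), dif_pos (hG 0)] at this
      exact e.injective this
    have h1 : ∀ i, G i ∈ U (ctr (G 0)) := fun i => by rw [← h0 i]; exact hctr _ (hG i)
    obtain ⟨a1, a2⟩ := h _ (htS _ (ctr (G 0)).2) G h1 r hr hrk
    exact ⟨(Finset.inf'_le c (ctr (G 0)).2).trans a1.le, (Finset.inf'_le c (ctr (G 0)).2).trans a2.le⟩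
  · refine ⟨1, one_pos, 0, fun _ => 0, ?_⟩
    intro G hG
    have := ht (hG 0)
    rw [Finset.not_nonempty_iff_eq_empty.1 hte] at this
    simp at this

end Pool.Agent.H56.GL
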